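import Mathlib

/-!
# Pebbles on a line with a pocket: a lower bound for reversing the order

Dyadic zones and epochs.
-/

set_option autoImplicit false

open Finset

namespace Pool.Agent.H185.PM

/-- clamp to `[D, 2D]` -/
def cl (D x : ℕ) : ℕ := max D (min x (2 * D))

/-- distance between the clamps -/
def cd (D x y : ℕ) : ℕ := (cl D x - cl D y) + (cl D y - cl D x)

theorem cd_comm (D x y : ℕ) : cd D x y = cd D y x := by unfold cd; omega

theorem cl_mono (D : ℕ) {x y : ℕ} (h : x ≤ y) : cl D x ≤ cl D y := by unfold cl; omega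

theorem sum_cl (m x : ℕ) :
    ∑ j ∈ range m, cl (2 ^ j) x + 2 = 2 ^ m + max 1 (min x (2 ^ m)) := by
  induction m with
  | zero => simp
  | succ m ih =>
    rw [sum_range_succ, pow_succ]
    have h1 : 1 ≤ 2 ^ m := Nat.one_le_two_pow
    generalize 2 ^ m = P at *
    unfold cl at *
    omega

theorem sum_cd_le {m x y : ℕ} (h : x ≤ y) : ∑ j ∈ range m, cd (2 ^ j) x y ≤ y - x := by
  have h1 : ∑ j ∈ range m, cd (2 ^ j) x y + ∑ j ∈ range m, cl (2 ^ j) x =
      ∑ j ∈ range m, cl (2 ^ j) y := by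
    rw [← sum_add_distrib]
    refine sum_congr rfl fun j _ => ?_
    have := cl_mono (2 ^ j) h
    unfold cd
    omega
  have h2 := sum_cl m x
  have h3 := sum_cl m y
  have h4 : 1 ≤ 2 ^ m := Nat.one_le_two_pow
  generalize 2 ^ m = P at *
  omega

theorem sum_cd (m x y : ℕ) : ∑ j ∈ range m, cd (2 ^ j) x y ≤ (x - y) + (y - x) := by
  rcases le_total x y with h | h
  · have := sum_cd_le (m := m) h
    omega
  · have := sum_cd_le (m := m) h
    simp_rw [cd_comm _ x y]
    omega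

variable {n : ℕ} (Y : ℕ → Fin n → ℤ)

/-- the cost of the step `t` of the pebble `i` in the zone `D` -/
def co (D t : ℕ) (i : Fin n) : ℕ := cd D (Y t i).natAbs (Y (t + 1) i).natAbs

/-- total cost in the zone up to time `t` -/
def C (D t : ℕ) : ℕ := ∑ s ∈ range t, ∑ i, co Y D s i

theorem C_mono (D : ℕ) : Monotone (C Y D) := by
  refine monotone_nat_of_le_succ fun t => ?_
  unfold C
  rw [sum_range_succ]
  omega

theorem lip (D : ℕ) (i : Fin n) {s t : ℕ} (h : s ≤ t) :
    cl D (Y s i).natAbs ≤ cl D (Y t i).natAbs + ∑ r ∈ Ico s t, co Y D r i := by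
  induction t, h using Nat.le_induction with
  | base => simp
  | succ t hst ih =>
    rw [sum_Ico_succ_top hst]
    have : cl D (Y t i).natAbs ≤ cl D (Y (t + 1) i).natAbs + co Y D t i := by
      unfold co cd
      omega
    omega

/-- the pebbles which come near the centre during the epoch `e` -/
def Se (D T e : ℕ) : Finset (Fin n) :=
  univ.filter fun i => ∃ t ≤ T, C Y D t / D ^ 2 = e ∧ (Y t i).natAbs ≤ D

theorem card_Se {D T : ℕ} (hD : 0 < D)
    (hA : ∀ t ≤ T, (univ.filter fun i => (Y t i).natAbs < 2 * D).card ≤ 4 * D) (e : ℕ) :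
    (Se Y D T e).card ≤ 5 * D := by
  classical
  by_cases h : ∃ t, t ≤ T ∧ C Y D t / D ^ 2 = e
  swap
  · have : Se Y D T e = ∅ := by
      unfold Se
      rw [filter_eq_empty_iff]
      rintro i - ⟨t, ht, h1, -⟩
      exact h ⟨t, ht, h1⟩
    rw [this]
    simp
  obtain ⟨h0T, h0⟩ := Nat.find_spec h
  set t0 := Nat.find h with ht0
  have hmin : ∀ t ≤ T, C Y D t / D ^ 2 = e → t0 ≤ t := fun t ht h1 => Nat.find_min' h ⟨ht, h1⟩
  set t1 := Nat.findGreatest (fun t => C Y D t / D ^ 2 = e) T with ht1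
  have h1 : C Y D t1 / D ^ 2 = e := Nat.findGreatest_spec (P := fun t => C Y D t / D ^ 2 = e) h0T h0
  have hmax : ∀ t ≤ T, C Y D t / D ^ 2 = e → t ≤ t1 := fun t ht h2 => Nat.le_findGreatest ht h2
  have h01 : t0 ≤ t1 := hmax t0 h0T h0
  set A := univ.filter fun i => (Y t0 i).natAbs < 2 * D with hAdef
  set B := (Se Y D T e).filter fun i => ¬ (Y t0 i).natAbs < 2 * D with hB
  have hsub : Se Y D T e ⊆ A ∪ B := by
    intro i hi
    by_cases h2 : (Y t0 i).natAbs < 2 * D
    · exact mem_union_left _ (mem_filter.2 ⟨mem_univ _, h2⟩)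
    · exact mem_union_right _ (mem_filter.2 ⟨hi, h2⟩)
  have hBi : ∀ i ∈ B, D ≤ ∑ r ∈ Ico t0 t1, co Y D r i := by
    intro i hi
    obtain ⟨hi1, hi2⟩ := mem_filter.1 hi
    obtain ⟨-, t, htT, hte, htD⟩ := mem_filter.1 hi1
    have h3 := lip Y D i (hmin t htT hte)
    have h4 : ∑ r ∈ Ico t0 t, co Y D r i ≤ ∑ r ∈ Ico t0 t1, co Y D r i :=
      sum_le_sum_of_subset (Ico_subset_Ico_right (hmax t htT hte))
    have h5 : cl D (Y t0 i).natAbs = 2 * D := by unfold cl; omega
    have h6 : cl D (Y t i).natAbs = D := by unfold cl; omega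
    omega
  have hC : C Y D t1 = C Y D t0 + ∑ r ∈ Ico t0 t1, ∑ i, co Y D r i := by
    unfold C
    rw [sum_range_add_sum_Ico _ h01]
  have hB1 : B.card * D ≤ ∑ r ∈ Ico t0 t1, ∑ i, co Y D r i := by
    calc B.card * D = ∑ _i ∈ B, D := by rw [sum_const, smul_eq_mul]
      _ ≤ ∑ i ∈ B, ∑ r ∈ Ico t0 t1, co Y D r i := sum_le_sum hBi
      _ ≤ ∑ i, ∑ r ∈ Ico t0 t1, co Y D r i := sum_le_sum_of_subset (subset_univ _)
      _ = ∑ r ∈ Ico t0 t1, ∑ i, co Y D r i := sum_comm
  have hDD : 0 < D ^ 2 := by positivity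
  have hlt : C Y D t1 < (e + 1) * D ^ 2 := by
    rw [← Nat.div_lt_iff_lt_mul hDD, h1]
    omega
  have hge : e * D ^ 2 ≤ C Y D t0 := by
    rw [← Nat.le_div_iff_mul_le hDD, h0]
  have hB2 : B.card * D < D * D := by
    have e1 : (e + 1) * D ^ 2 = e * D ^ 2 + D * D := by ring
    omega
  have hB3 : B.card < D := lt_of_mul_lt_mul_right hB2 (Nat.zero_le _)
  have hA1 : A.card ≤ 4 * D := hA t0 h0T
  calc (Se Y D T e).card ≤ (A ∪ B).card := card_le_card hsub
    _ ≤ A.card + B.card := card_union_le _ _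
    _ ≤ 5 * D := by omega

theorem pairs {D T : ℕ} (hD : 0 < D)
    (hA : ∀ t ≤ T, (univ.filter fun i => (Y t i).natAbs < 2 * D).card ≤ 4 * D)
    (hmeet : ∀ a b, a ≠ b → ∃ t ≤ T, Y t a = 0 ∧ Y t b = 0) :
    n * (n - 1) ≤ 25 * (C Y D T + D ^ 2) := by
  classical
  have hsub : (univ : Finset (Fin n)).offDiag ⊆
      (range (C Y D T / D ^ 2 + 1)).biUnion fun e => Se Y D T e ×ˢ Se Y D T e := by
    rintro ⟨a, b⟩ hab
    rw [mem_offDiag] at hab
    obtain ⟨t, htT, ha, hb⟩ := hmeet a b hab.2.2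
    rw [mem_biUnion]
    refine ⟨C Y D t / D ^ 2, ?_, ?_⟩
    · rw [mem_range, Nat.lt_succ_iff]
      exact Nat.div_le_div_right (C_mono Y D htT)
    · rw [mem_product]
      exact ⟨mem_filter.2 ⟨mem_univ _, t, htT, rfl, by rw [ha]; simp⟩,
        mem_filter.2 ⟨mem_univ _, t, htT, rfl, by rw [hb]; simp⟩⟩
  have h1 := card_le_card hsub
  rw [offDiag_card, card_univ, Fintype.card_fin] at h1
  have h2 : ((range (C Y D T / D ^ 2 + 1)).biUnion fun e => Se Y D T e ×ˢ Se Y D T e).card ≤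
      (C Y D T / D ^ 2 + 1) * (25 * D ^ 2) := by
    refine (card_biUnion_le).trans ?_
    calc ∑ e ∈ range (C Y D T / D ^ 2 + 1), (Se Y D T e ×ˢ Se Y D T e).card
        ≤ ∑ _e ∈ range (C Y D T / D ^ 2 + 1), 25 * D ^ 2 := by
          refine sum_le_sum fun e _ => ?_
          rw [card_product]
          have := card_Se Y hD hA e
          calc _ ≤ (5 * D) * (5 * D) := Nat.mul_le_mul this this
            _ = 25 * D ^ 2 := by ring
      _ = (C Y D T / D ^ 2 + 1) * (25 * D ^ 2) := by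
          rw [sum_const, card_range, smul_eq_mul]
  have h3 : C Y D T / D ^ 2 * D ^ 2 ≤ C Y D T := Nat.div_mul_le_self _ _
  have h4 : n * (n - 1) = n * n - n := by
    rw [Nat.mul_sub, mul_one]
  rw [h4]
  calc n * n - n ≤ (C Y D T / D ^ 2 + 1) * (25 * D ^ 2) := h1.trans h2
    _ = 25 * (C Y D T / D ^ 2 * D ^ 2 + D ^ 2) := by ring
    _ ≤ 25 * (C Y D T + D ^ 2) := by gcongr

/-- **The lower bound for the number of steps.** -/
theorem lower {T m : ℕ}
    (hstep : ∀ t < T, ∃ a, (∀ i, i ≠ a → Y (t + 1) i = Y t i) ∧ |Y (t + 1) a - Y t a| ≤ 1)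
    (hA : ∀ D, 0 < D → ∀ t ≤ T, (univ.filter fun i => (Y t i).natAbs < 2 * D).card ≤ 4 * D)
    (hmeet : ∀ a b, a ≠ b → ∃ t ≤ T, Y t a = 0 ∧ Y t b = 0) :
    m * (n * (n - 1)) ≤ 25 * (T + 4 ^ m) := by
  have h1 : ∑ j ∈ range m, C Y (2 ^ j) T ≤ T := by
    unfold C
    rw [sum_comm]
    calc ∑ s ∈ range T, ∑ j ∈ range m, ∑ i, co Y (2 ^ j) s i ≤ ∑ _s ∈ range T, 1 := by
          refine sum_le_sum fun s hs => ?_
          rw [sum_comm]
          obtain ⟨a, ha, ha'⟩ := hstep s (mem_range.1 hs)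
          rw [sum_eq_single a]
          · refine (sum_cd m _ _).trans ?_
            have := abs_le.1 ha'
            omega
          · intro i _ hi
            refine sum_eq_zero fun j _ => ?_
            unfold co cd
            rw [ha i hi]
            omega
          · intro h
            exact absurd (mem_univ a) h
      _ = T := by simp
  have h2 : ∑ j ∈ range m, (2 ^ j) ^ 2 ≤ 4 ^ m := by
    have h3 : ∀ m : ℕ, ∑ j ∈ range m, (2 ^ j) ^ 2 + 1 ≤ 4 ^ m := by
      intro m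
      induction m with
      | zero => simp
      | succ m ih =>
        rw [sum_range_succ]
        have : (2 ^ m) ^ 2 = 4 ^ m := by rw [← pow_mul, mul_comm, pow_mul]; norm_num
        rw [this, pow_succ]
        omega
    have := h3 m
    omega
  calc m * (n * (n - 1)) = ∑ _j ∈ range m, n * (n - 1) := by simp
    _ ≤ ∑ j ∈ range m, 25 * (C Y (2 ^ j) T + (2 ^ j) ^ 2) :=
        sum_le_sum fun j _ => pairs Y (by positivity) (hA _ (by positivity)) hmeet
    _ = 25 * (∑ j ∈ range m, C Y (2 ^ j) T + ∑ j ∈ range m, (2 ^ j) ^ 2) := by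
        rw [← mul_sum, sum_add_distrib]
    _ ≤ 25 * (T + 4 ^ m) := by gcongr

end Pool.Agent.H185.PM
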