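import Pool.Agent.H185.PM.Abs

/-!
# The spider and the motion of pebbles on it
-/

set_option autoImplicit false

open Finset

namespace Pool.Agent.H185.PM

section Defs

variable {V : Type*}

/-- the path `p` is an isthmus -/
def IsIsthmus (G : SimpleGraph V) {u v : V} (p : G.Walk u v) : Prop :=
  p.IsPath ∧ (∀ e ∈ p.edges, G.IsBridge e) ∧
    (∀ x ∈ p.support, ¬ (G.induce ({x}ᶜ : Set V)).Preconnected) ∧
    ∀ x ∈ p.support, x ≠ u → x ≠ v → (G.neighborSet x).ncard = 2

/-- the number of vertices of a longest isthmus -/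
noncomputable def isthmusSize (G : SimpleGraph V) : ℕ :=
  sSup {d : ℕ | ∃ (u v : V) (p : G.Walk u v), IsIsthmus G p ∧ p.support.length = d}

variable {n : ℕ}

/-- `f` is a configuration of the pebbles `1, …, n` (`0` means unoccupied) -/
def IsConfig (f : V → Fin (n + 1)) : Prop := ∀ i : Fin (n + 1), i ≠ 0 → ∃! v, f v = i

/-- a move shifts one pebble to an adjacent unoccupied vertex -/
def IsMove (G : SimpleGraph V) (f g : V → Fin (n + 1)) : Prop :=
  ∃ u v, G.Adj u v ∧ f u ≠ 0 ∧ f v = 0 ∧ g u = 0 ∧ g v = f u ∧ ∀ w, w ≠ u → w ≠ v → g w = f w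

/-- `f` can be transformed into `g` with `m` moves -/
def Solves (G : SimpleGraph V) (f g : V → Fin (n + 1)) (m : ℕ) : Prop :=
  ∃ s : ℕ → V → Fin (n + 1), s 0 = f ∧ s m = g ∧ ∀ t < m, IsMove G (s t) (s (t + 1))

end Defs

section Config

variable {V : Type*} [Nonempty V] {n : ℕ}

/-- the position of a pebble -/
noncomputable def pl (f : V → Fin (n + 1)) (i : Fin n) : V := Classical.epsilon fun v => f v = i.succ

theorem pl_spec {f : V → Fin (n + 1)} (hf : IsConfig f) (i : Fin n) : f (pl f i) = i.succ :=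
  Classical.epsilon_spec (hf i.succ (Fin.succ_ne_zero i)).exists

theorem pl_eq {f : V → Fin (n + 1)} (hf : IsConfig f) {i : Fin n} {v : V} (h : f v = i.succ) :
    pl f i = v :=
  (hf i.succ (Fin.succ_ne_zero i)).unique (pl_spec hf i) h

theorem pl_inj {f : V → Fin (n + 1)} (hf : IsConfig f) : Function.Injective (pl f) := by
  intro i j h
  have h1 := pl_spec hf i
  rw [h, pl_spec hf j] at h1
  exact (Fin.succ_injective n h1).symm

theorem move_config {G : SimpleGraph V} {f g : V → Fin (n + 1)} (hf : IsConfig f)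
    (h : IsMove G f g) : IsConfig g ∧ ∃ a, (∀ i, i ≠ a → pl g i = pl f i) ∧
      G.Adj (pl f a) (pl g a) := by
  obtain ⟨u, v, hadj, hu, hv, hgu, hgv, hw⟩ := h
  have hcfg : IsConfig g := by
    intro i hi
    by_cases h1 : i = f u
    · refine ⟨v, hgv.trans h1.symm, ?_⟩
      intro w hgw
      by_contra hwv
      replace hgw : g w = i := hgw
      by_cases hwu : w = u
      · rw [hwu, hgu] at hgw
        exact hi hgw.symm
      · rw [hw w hwu hwv] at hgw
        exact hwu ((hf i hi).unique hgw h1.symm)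
    · obtain ⟨w, hfw, huniq⟩ := hf i hi
      replace hfw : f w = i := hfw
      have hwu : w ≠ u := by
        rintro rfl
        exact h1 hfw.symm
      have hwv : w ≠ v := by
        rintro rfl
        rw [hv] at hfw
        exact hi hfw.symm
      refine ⟨w, (hw w hwu hwv).trans hfw, ?_⟩
      intro w' hgw'
      replace hgw' : g w' = i := hgw'
      have hwu' : w' ≠ u := by
        rintro rfl
        rw [hgu] at hgw'
        exact hi hgw'.symm
      have hwv' : w' ≠ v := by
        rintro rfl
        rw [hgv] at hgw'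
        exact h1 hgw'.symm
      rw [hw w' hwu' hwv'] at hgw'
      exact huniq w' hgw'
  refine ⟨hcfg, ?_⟩
  obtain ⟨a, ha⟩ := Fin.exists_succ_eq.2 hu
  refine ⟨a, fun i hi => ?_, ?_⟩
  · refine pl_eq hcfg ?_
    have h1 : pl f i ≠ u := by
      intro h
      apply hi
      have := pl_spec hf i
      rw [h, ← ha] at this
      exact (Fin.succ_injective n this).symm
    have h2 : pl f i ≠ v := by
      intro h
      have := pl_spec hf i
      rw [h, hv] at this
      exact Fin.succ_ne_zero i this.symm
    rw [hw _ h1 h2]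
    exact pl_spec hf i
  · rw [pl_eq hf ha.symm, pl_eq hcfg (hgv.trans ha.symm)]
    exact hadj

end Config

section Tree

/-- the graph of a parent function -/
def parGraph (N : ℕ) (par : ℕ → ℕ) : SimpleGraph (Fin N) where
  Adj u v := u ≠ v ∧ ((v.val ≠ 0 ∧ u.val = par v.val) ∨ (u.val ≠ 0 ∧ v.val = par u.val))
  symm := ⟨fun _ _ h => ⟨h.1.symm, h.2.symm⟩⟩
  loopless := ⟨fun _ h => h.1 rfl⟩

theorem parGraph_connected {N : ℕ} {par : ℕ → ℕ} (hN : 0 < N) (hpar : ∀ v, v ≠ 0 → par v < v) :
    (parGraph N par).Connected := by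
  have h0 : ∀ k : ℕ, ∀ hk : k < N, (parGraph N par).Reachable ⟨k, hk⟩ ⟨0, hN⟩ := by
    intro k
    induction k using Nat.strong_induction_on with
    | _ k ih =>
      intro hk
      by_cases h : k = 0
      · subst h
        exact SimpleGraph.Reachable.refl _
      · have h1 := hpar k h
        refine SimpleGraph.Reachable.trans (SimpleGraph.Adj.reachable (v := ⟨par k, by omega⟩) ?_)
          (ih (par k) h1 (by omega))
        refine ⟨?_, Or.inr ⟨h, rfl⟩⟩
        intro h2
        have := congrArg Fin.val h2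
        simp only at this
        omega
  have : Nonempty (Fin N) := ⟨⟨0, hN⟩⟩
  refine SimpleGraph.Connected.mk fun u v => ?_
  exact (h0 u.val u.2).trans (h0 v.val v.2).symm

theorem parGraph_tree {N : ℕ} {par : ℕ → ℕ} (hN : 0 < N) (hpar : ∀ v, v ≠ 0 → par v < v) :
    (parGraph N par).IsTree := by
  classical
  have hconn := parGraph_connected hN hpar
  rw [SimpleGraph.isTree_iff_connected_and_card]
  refine ⟨hconn, ?_⟩
  refine le_antisymm ?_ hconn.card_vert_le_card_edgeSet_add_one
  have hs : Function.Surjective (fun v : {v : Fin N // v.val ≠ 0} =>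
      (⟨s(v.1, ⟨par v.1.val, lt_trans (hpar _ v.2) v.1.2⟩), by
        rw [SimpleGraph.mem_edgeSet]
        refine ⟨?_, Or.inr ⟨v.2, rfl⟩⟩
        intro h
        have h1 := congrArg Fin.val h
        have h2 := hpar _ v.2
        simp only at h1
        omega⟩ : (parGraph N par).edgeSet)) := by
    rintro ⟨e, he⟩
    induction e using Sym2.ind with
    | _ u v =>
      rw [SimpleGraph.mem_edgeSet] at he
      rcases he with ⟨hne, ⟨h1, h2⟩ | ⟨h1, h2⟩⟩
      · refine ⟨⟨v, h1⟩, ?_⟩
        apply Subtype.ext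
        simp only
        have h3 : (⟨par v.val, lt_trans (hpar _ h1) v.2⟩ : Fin N) = u := Fin.ext h2.symm
        rw [h3, Sym2.eq_swap]
      · refine ⟨⟨u, h1⟩, ?_⟩
        apply Subtype.ext
        have h3 : (⟨par u.val, lt_trans (hpar _ h1) u.2⟩ : Fin N) = v := Fin.ext h2.symm
        simp only
        rw [h3]
  have h1 := Nat.card_le_card_of_surjective _ hs
  have h2 : Nat.card {v : Fin N // v.val ≠ 0} + 1 ≤ Nat.card (Fin N) := by
    rw [Nat.card_eq_fintype_card, Nat.card_eq_fintype_card]
    have : Fintype.card {v : Fin N // v.val ≠ 0} < Fintype.card (Fin N) :=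
      Fintype.card_subtype_lt (x := ⟨0, hN⟩) (by simp)
    omega
  change Nat.card (parGraph N par).edgeSet + 1 ≤ _
  exact (Nat.succ_le_succ h1).trans h2

end Tree

end Pool.Agent.H185.PM
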