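import Pool.Agent.H185.PM.Solve

/-!
# The family of instances
-/

set_option autoImplicit false

open Finset Relation

namespace Pool.Agent.H185.PM

theorem reach_all {l : ℕ} (τ : Equiv.Perm (Fin (l + 1))) :
    Reach (spider (l + 1)) (st 1 0) (st τ 0) := by
  have h : τ ∈ Submonoid.closure
      (Set.range fun i : Fin l => Equiv.swap i.castSucc i.succ) := by
    rw [Equiv.Perm.mclosure_swap_castSucc_succ]
    trivial
  induction h using Submonoid.closure_induction_left with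
  | one => exact ReflTransGen.refl
  | mul_left x hx y hy ih =>
    obtain ⟨i, rfl⟩ := hx
    have h1 := reach_swap y (i := i.val + 1) (by omega) (by omega)
    exact ih.trans h1

theorem log_bound {m : ℕ} (hm : 5 ≤ m) : Real.log (((2 : ℝ) * 2 ^ m + 2)) ≤ m := by
  have h1 : (1 : ℝ) ≤ 2 ^ m := one_le_pow₀ (by norm_num)
  have h2 : (2 : ℝ) * 2 ^ m + 2 ≤ 2 ^ (m + 2) := by
    rw [pow_add]
    nlinarith
  calc Real.log ((2 : ℝ) * 2 ^ m + 2) ≤ Real.log (2 ^ (m + 2)) := Real.log_le_log (by positivity) h2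
    _ = (m + 2) * Real.log 2 := by
        rw [Real.log_pow]
        push_cast
        ring
    _ ≤ (m + 2) * 0.6931471808 := by
        have := Real.log_two_lt_d9
        gcongr
    _ ≤ m := by
        have : (5 : ℝ) ≤ m := by exact_mod_cast hm
        linarith

theorem final_bound {m T : ℕ} (hm : 100 ≤ m)
    (h : m * (2 ^ m * (2 ^ m - 1)) ≤ 25 * (T + 4 ^ m)) :
    (1 / 1000 : ℝ) * ((2 * 2 ^ m + 2 : ℕ) : ℝ) ^ 2 * Real.log ((2 * 2 ^ m + 2 : ℕ) : ℝ) ≤ T := by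
  have hP : (2 : ℕ) ≤ 2 ^ m := by
    calc 2 = 2 ^ 1 := rfl
      _ ≤ 2 ^ m := Nat.pow_le_pow_right (by norm_num) (by omega)
  have h4 : (4 : ℕ) ^ m = 2 ^ m * 2 ^ m := by
    rw [← mul_pow]
    norm_num
  rw [h4] at h
  have hlog := log_bound (m := m) (by omega)
  have hlog0 : 0 ≤ Real.log ((2 : ℝ) * 2 ^ m + 2) := Real.log_nonneg (by
    have : (0 : ℝ) < 2 ^ m := by positivity
    linarith)
  push_cast
  have hP' : (2 : ℝ) ≤ (2 : ℝ) ^ m := by exact_mod_cast hP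
  have h' : (m : ℝ) * ((2 : ℝ) ^ m * ((2 : ℝ) ^ m - 1)) ≤ 25 * (T + (2 : ℝ) ^ m * (2 : ℝ) ^ m) := by
    have h1 : ((m * (2 ^ m * (2 ^ m - 1)) : ℕ) : ℝ) ≤ ((25 * (T + 2 ^ m * 2 ^ m) : ℕ) : ℝ) := by
      exact_mod_cast h
    have h2 : (((2 ^ m - 1 : ℕ)) : ℝ) = (2 : ℝ) ^ m - 1 := by
      rw [Nat.cast_sub (by omega)]
      push_cast
      ring
    rw [Nat.cast_mul, Nat.cast_mul, h2] at h1
    push_cast at h1
    linarith
  have hm' : (100 : ℝ) ≤ m := by exact_mod_cast hm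
  generalize (2 : ℝ) ^ m = P at *
  generalize Real.log (2 * P + 2) = l at *
  have h5 : (1 / 1000 : ℝ) * (2 * P + 2) ^ 2 * l ≤ (1 / 1000 : ℝ) * (2 * P + 2) ^ 2 * m := by
    gcongr
  refine h5.trans ?_
  have h6 : (2 * P + 2) ^ 2 ≤ 9 * P ^ 2 := by nlinarith
  have h7 : (1 / 1000 : ℝ) * (2 * P + 2) ^ 2 * m ≤ (1 / 1000 : ℝ) * (9 * P ^ 2) * m := by
    gcongr
  refine h7.trans ?_
  have h8 : P * P ≤ 2 * (P * (P - 1)) := by nlinarith
  have h9 : (m : ℝ) * (P * P) ≤ 2 * (m * (P * (P - 1))) := by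
    have := mul_le_mul_of_nonneg_left h8 (by linarith : (0 : ℝ) ≤ m)
    linarith
  have h10 : (100 : ℝ) * (P * P) ≤ m * (P * P) := by
    have : 0 ≤ P * P := by positivity
    gcongr
  nlinarith

/-- the instance with `L = n = 2 ^ m` -/
theorem instance_bound {m : ℕ} (hm : 100 ≤ m) :
    ∃ f g : Fin (2 * 2 ^ m + 2) → Fin (2 ^ m + 1), IsConfig f ∧ IsConfig g ∧
      (∃ T, Solves (spider (2 ^ m)) f g T) ∧ ∀ T, Solves (spider (2 ^ m)) f g T →
        (1 / 1000 : ℝ) * ((2 * 2 ^ m + 2 : ℕ) : ℝ) ^ 2 * Real.log ((2 * 2 ^ m + 2 : ℕ) : ℝ) ≤ T := by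
  have key : ∀ L : ℕ, 0 < L → ∃ f g : Fin (2 * L + 2) → Fin (L + 1), IsConfig f ∧ IsConfig g ∧
      (∃ T, Solves (spider L) f g T) ∧ ∀ T, Solves (spider L) f g T →
        ∀ m, m * (L * (L - 1)) ≤ 25 * (T + 4 ^ m) := by
    intro L hL
    obtain ⟨l, rfl⟩ := Nat.exists_eq_succ_of_ne_zero hL.ne'
    refine ⟨conf (st 1 0), conf (st Fin.revPerm 0), conf_config (st_inj _ _),
      conf_config (st_inj _ _), (reach_all _).solves, fun T hT m => ?_⟩
    refine lower_spider (conf_config (st_inj _ _)) hT (fun i => ?_) fun i => ?_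
    · rw [pl_conf (st_inj _ _)]
      have h1 : (st (1 : Equiv.Perm (Fin l.succ)) 0 i).val = l.succ + 1 + i.val := by
        rw [st_val, if_neg (Nat.not_lt_zero _), Equiv.Perm.one_apply]
      have := i.2
      unfold yc
      rw [h1, if_pos (by omega)]
      push_cast
      ring
    · rw [pl_conf (st_inj _ _)]
      have h1 : (st (Fin.revPerm : Equiv.Perm (Fin l.succ)) 0 i).val =
          l.succ + 1 + (l.succ - (i.val + 1)) := by
        rw [st_val, if_neg (Nat.not_lt_zero _), Fin.revPerm_apply, Fin.val_rev]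
      have := i.2
      unfold yc
      rw [h1, if_pos (by omega)]
      omega
  obtain ⟨f, g, hf, hg, hT, h⟩ := key (2 ^ m) (by positivity)
  exact ⟨f, g, hf, hg, hT, fun T hs => final_bound hm (h T hs m)⟩

end Pool.Agent.H185.PM
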