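import Pool.Agent.H185.PM.Graph

/-!
# Solvability: placements and moves
-/

set_option autoImplicit false

open Finset Relation

namespace Pool.Agent.H185.PM

section General

variable {V : Type*} {n : ℕ}

open Classical in
/-- the configuration of a placement -/
noncomputable def conf (x : Fin n → V) (v : V) : Fin (n + 1) :=
  if h : ∃ a, x a = v then h.choose.succ else 0

theorem conf_apply {x : Fin n → V} (hx : Function.Injective x) (a : Fin n) :
    conf x (x a) = a.succ := by
  have h : ∃ b, x b = x a := ⟨a, rfl⟩
  unfold conf
  rw [dif_pos h, hx h.choose_spec]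

theorem conf_free {x : Fin n → V} {v : V} (hv : ∀ a, x a ≠ v) : conf x v = 0 := by
  unfold conf
  rw [dif_neg]
  rintro ⟨a, ha⟩
  exact hv a ha

theorem conf_config {x : Fin n → V} (hx : Function.Injective x) : IsConfig (conf x) := by
  intro i hi
  obtain ⟨a, rfl⟩ := Fin.exists_succ_eq.2 hi
  refine ⟨x a, conf_apply hx a, ?_⟩
  intro w hw
  replace hw : conf x w = a.succ := hw
  by_cases h : ∃ b, x b = w
  · obtain ⟨b, rfl⟩ := h
    rw [conf_apply hx b] at hw
    rw [Fin.succ_injective n hw]
  · push Not at h
    rw [conf_free h] at hw
    exact absurd hw.symm (Fin.succ_ne_zero a)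

theorem pl_conf [Nonempty V] {x : Fin n → V} (hx : Function.Injective x) (a : Fin n) :
    pl (conf x) a = x a := pl_eq (conf_config hx) (conf_apply hx a)

/-- a move of a placement -/
def PMove (G : SimpleGraph V) (x x' : Fin n → V) : Prop :=
  Function.Injective x ∧ ∃ a w, G.Adj (x a) w ∧ (∀ b, x b ≠ w) ∧ x' = Function.update x a w

theorem PMove.inj {G : SimpleGraph V} {x x' : Fin n → V} (h : PMove G x x') :
    Function.Injective x' := by
  obtain ⟨hx, a, w, hadj, hw, rfl⟩ := h
  intro b c hbc
  by_cases hb : b = a
  · by_cases hc : c = a
    · rw [hb, hc]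
    · rw [hb, Function.update_self, Function.update_of_ne hc] at hbc
      exact absurd hbc.symm (hw c)
  · by_cases hc : c = a
    · rw [hc, Function.update_self, Function.update_of_ne hb] at hbc
      exact absurd hbc (hw b)
    · rw [Function.update_of_ne hb, Function.update_of_ne hc] at hbc
      exact hx hbc

theorem PMove.symm {G : SimpleGraph V} {x x' : Fin n → V} (h : PMove G x x') : PMove G x' x := by
  have hi := h.inj
  obtain ⟨hx, a, w, hadj, hw, rfl⟩ := h
  refine ⟨hi, a, x a, ?_, ?_, ?_⟩
  · rw [Function.update_self]
    exact hadj.symm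
  · intro b
    by_cases hb : b = a
    · rw [hb, Function.update_self]
      exact (hw a).symm
    · rw [Function.update_of_ne hb]
      exact fun h => hb (hx h)
  · simp

theorem PMove.isMove {G : SimpleGraph V} {x x' : Fin n → V} (h : PMove G x x') :
    IsMove G (conf x) (conf x') := by
  have hi := h.inj
  obtain ⟨hx, a, w, hadj, hw, rfl⟩ := h
  have e : Function.update x a w a = w := Function.update_self _ _ _
  refine ⟨x a, w, hadj, ?_, conf_free hw, ?_, ?_, ?_⟩
  · rw [conf_apply hx]
    exact Fin.succ_ne_zero a
  · refine conf_free fun b => ?_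
    by_cases hb : b = a
    · rw [hb, Function.update_self]
      exact (hw a).symm
    · rw [Function.update_of_ne hb]
      exact fun h => hb (hx h)
  · have h1 := conf_apply hi a
    rw [e] at h1
    rw [h1, conf_apply hx]
  · intro v hv1 hv2
    by_cases h : ∃ b, x b = v
    · obtain ⟨b, rfl⟩ := h
      have hb : b ≠ a := by
        rintro rfl
        exact hv1 rfl
      have h1 := conf_apply hi b
      rw [Function.update_of_ne hb] at h1
      rw [h1, conf_apply hx]
    · push Not at h
      rw [conf_free h]
      refine conf_free fun b => ?_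
      by_cases hb : b = a
      · rw [hb, Function.update_self]
        exact hv2.symm
      · rw [Function.update_of_ne hb]
        exact h b

/-- reachability of placements -/
abbrev Reach (G : SimpleGraph V) (x x' : Fin n → V) : Prop := ReflTransGen (PMove G) x x'

theorem Reach.symm {G : SimpleGraph V} {x x' : Fin n → V} (h : Reach G x x') : Reach G x' x := by
  have : Std.Symm (PMove (n := n) G) := ⟨fun _ _ h => h.symm⟩
  exact Std.Symm.symm _ _ h

theorem Reach.solves {G : SimpleGraph V} {x x' : Fin n → V} (h : Reach G x x') :
    ∃ m, Solves G (conf x) (conf x') m := by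
  induction h with
  | refl => exact ⟨0, fun _ => conf x, rfl, rfl, fun t ht => absurd ht (Nat.not_lt_zero t)⟩
  | tail h1 h2 ih =>
    rename_i b c
    obtain ⟨m, s, hs0, hsm, hs⟩ := ih
    refine ⟨m + 1, fun t => if t ≤ m then s t else conf c, ?_, ?_, ?_⟩
    · simp [hs0]
    · simp
    · intro t ht
      by_cases h3 : t < m
      · have e1 : t ≤ m := by omega
        have e2 : t + 1 ≤ m := by omega
        simp only [e1, e2, if_true]
        exact hs t h3
      · have e1 : t = m := by omega
        subst e1
        simp only [le_refl, if_true]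
        rw [if_neg (by omega), hsm]
        exact h2.isMove

end General

end Pool.Agent.H185.PM
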