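import Pool.Agent.H185.PM.Spider

/-!
# Every arrangement on the leg of the spider can be permuted arbitrarily
-/

set_option autoImplicit false

open Finset Relation

namespace Pool.Agent.H185.PM

variable {L : ℕ}

/-- sliding a pebble to the right along free vertices -/
theorem slide_right {x : Fin L → Fin (2 * L + 2)} (hx : Function.Injective x) (a : Fin L) (k : ℕ)
    (hk : (x a).val + k ≤ 2 * L)
    (hfree : ∀ b, b ≠ a → ¬ ((x a).val < (x b).val ∧ (x b).val ≤ (x a).val + k)) :
    Reach (spider L) x (Function.update x a ⟨(x a).val + k, by omega⟩) := by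
  induction k with
  | zero =>
    have : Function.update x a ⟨(x a).val + 0, by omega⟩ = x := by
      simp
    rw [this]
  | succ k ih =>
    have h1 := ih (by omega) (fun b hb h => hfree b hb ⟨h.1, by omega⟩)
    refine h1.tail ⟨?_, a, ⟨(x a).val + (k + 1), by omega⟩, ?_, ?_, ?_⟩
    · intro b c hbc
      by_cases hb : b = a
      · by_cases hc : c = a
        · rw [hb, hc]
        · rw [hb, Function.update_self, Function.update_of_ne hc, Fin.ext_iff] at hbc
          simp only at hbc
          by_cases hk0 : k = 0
          · subst hk0
            exact absurd (hx (Fin.ext hbc.symm)) hc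
          · exact absurd ⟨by omega, by omega⟩ (hfree c hc)
      · by_cases hc : c = a
        · rw [hc, Function.update_self, Function.update_of_ne hb, Fin.ext_iff] at hbc
          simp only at hbc
          by_cases hk0 : k = 0
          · subst hk0
            exact absurd (hx (Fin.ext hbc)) hb
          · exact absurd ⟨by omega, by omega⟩ (hfree b hb)
        · rw [Function.update_of_ne hb, Function.update_of_ne hc] at hbc
          exact hx hbc
    · rw [Function.update_self, spider_adj]
      left
      refine ⟨by simp only; omega, by simp only; omega, Or.inl ?_⟩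
      simp only
      omega
    · intro b hb
      by_cases hba : b = a
      · rw [hba, Function.update_self, Fin.ext_iff] at hb
        simp only at hb
        omega
      · rw [Function.update_of_ne hba, Fin.ext_iff] at hb
        simp only at hb
        exact hfree b hba ⟨by omega, by omega⟩
    · rw [Function.update_idem]

theorem Reach.inj {x x' : Fin L → Fin (2 * L + 2)} (hx : Function.Injective x)
    (h : Reach (spider L) x x') : Function.Injective x' := by
  induction h with
  | refl => exact hx
  | tail _ h _ => exact h.inj

/-- sliding to a vertex on the right -/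
theorem slide_to {x : Fin L → Fin (2 * L + 2)} (hx : Function.Injective x) (a : Fin L)
    (w : Fin (2 * L + 2)) (hw : w.val ≤ 2 * L) (haw : (x a).val ≤ w.val)
    (hfree : ∀ b, b ≠ a → ¬ ((x a).val < (x b).val ∧ (x b).val ≤ w.val)) :
    Reach (spider L) x (Function.update x a w) := by
  have h := slide_right hx a (w.val - (x a).val) (by omega) (fun b hb h => hfree b hb ⟨h.1, by omega⟩)
  have e : (⟨(x a).val + (w.val - (x a).val), by omega⟩ : Fin (2 * L + 2)) = w :=
    Fin.ext (by simp only; omega)
  rw [e] at h
  exact h

/-- sliding to a vertex on the left -/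
theorem slide_to_left {x : Fin L → Fin (2 * L + 2)} (hx : Function.Injective x) (a : Fin L)
    (w : Fin (2 * L + 2)) (ha : (x a).val ≤ 2 * L) (haw : w.val ≤ (x a).val)
    (hfree : ∀ b, b ≠ a → ¬ (w.val ≤ (x b).val ∧ (x b).val ≤ (x a).val)) :
    Reach (spider L) x (Function.update x a w) := by
  have hinj : Function.Injective (Function.update x a w) := by
    intro b c hbc
    by_cases hb : b = a
    · by_cases hc : c = a
      · rw [hb, hc]
      · rw [hb, Function.update_self, Function.update_of_ne hc] at hbc
        exact absurd ⟨by rw [hbc], by rw [← hbc]; exact haw⟩ (hfree c hc)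
    · by_cases hc : c = a
      · rw [hc, Function.update_self, Function.update_of_ne hb] at hbc
        exact absurd ⟨by rw [hbc], by rw [hbc]; exact haw⟩ (hfree b hb)
      · rw [Function.update_of_ne hb, Function.update_of_ne hc] at hbc
        exact hx hbc
  have h := slide_to hinj a (x a) ha (by rw [Function.update_self]; exact haw) (fun b hb h => by
    rw [Function.update_self, Function.update_of_ne hb] at h
    exact hfree b hb ⟨by omega, by omega⟩)
  rw [Function.update_idem, Function.update_eq_self] at h
  exact h.symm

/-- the standard placement: the pebble `a` has rank `σ a`, the first `i` pebbles are on the left -/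
def st (σ : Equiv.Perm (Fin L)) (i : ℕ) (a : Fin L) : Fin (2 * L + 2) :=
  if (σ a).val < i then ⟨(σ a).val, by omega⟩ else ⟨L + 1 + (σ a).val, by omega⟩

theorem st_val (σ : Equiv.Perm (Fin L)) (i : ℕ) (a : Fin L) :
    (st σ i a).val = if (σ a).val < i then (σ a).val else L + 1 + (σ a).val := by
  unfold st
  split_ifs <;> rfl

theorem st_inj (σ : Equiv.Perm (Fin L)) (i : ℕ) : Function.Injective (st σ i) := by
  intro a b h
  have h1 := congrArg Fin.val h
  rw [st_val, st_val] at h1
  have ha := (σ a).2
  have hb := (σ b).2
  apply σ.injective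
  apply Fin.ext
  split_ifs at h1 <;> omega

theorem st_step (σ : Equiv.Perm (Fin L)) {i : ℕ} (hi : i < L) :
    Reach (spider L) (st σ i) (st σ (i + 1)) := by
  set a := σ.symm ⟨i, hi⟩ with ha
  have hσa : (σ a).val = i := by rw [ha, Equiv.apply_symm_apply]
  have hne : ∀ b, b ≠ a → (σ b).val ≠ i := by
    intro b hb h
    exact hb (σ.injective (Fin.ext (h.trans hσa.symm)))
  have h1 : (st σ i a).val = L + 1 + i := by
    rw [st_val, if_neg (by omega), hσa]
  have h2 := slide_to_left (st_inj σ i) a ⟨i, by omega⟩ (by omega) (by simp only; omega) (by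
    intro b hb h
    have h3 := hne b hb
    rw [st_val, h1] at h
    simp only at h
    have h4 := (σ b).2
    split_ifs at h <;> omega)
  have e : Function.update (st σ i) a ⟨i, by omega⟩ = st σ (i + 1) := by
    funext b
    by_cases hb : b = a
    · rw [hb, Function.update_self]
      apply Fin.ext
      rw [st_val, if_pos (by omega), hσa]
    · rw [Function.update_of_ne hb]
      apply Fin.ext
      have h3 := hne b hb
      rw [st_val, st_val]
      split_ifs <;> omega
  rw [e] at h2
  exact h2

theorem st_zero (σ : Equiv.Perm (Fin L)) {i : ℕ} (hi : i ≤ L) :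
    Reach (spider L) (st σ 0) (st σ i) := by
  induction i with
  | zero => exact ReflTransGen.refl
  | succ i ih => exact (ih (by omega)).trans (st_step σ (by omega))

theorem update_inj {x : Fin L → Fin (2 * L + 2)} (hx : Function.Injective x) (a : Fin L)
    {w : Fin (2 * L + 2)} (hw : ∀ b, b ≠ a → x b ≠ w) : Function.Injective (Function.update x a w) := by
  intro b c hbc
  by_cases hb : b = a
  · by_cases hc : c = a
    · rw [hb, hc]
    · rw [hb, Function.update_self, Function.update_of_ne hc] at hbc
      exact absurd hbc.symm (hw c hc)
  · by_cases hc : c = a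
    · rw [hc, Function.update_self, Function.update_of_ne hb] at hbc
      exact absurd hbc (hw b hb)
    · rw [Function.update_of_ne hb, Function.update_of_ne hc] at hbc
      exact hx hbc

theorem st_swap (σ : Equiv.Perm (Fin L)) {i : ℕ} (h1i : 1 ≤ i) (hi : i < L) :
    Reach (spider L) (st σ i)
      (st (Equiv.swap ⟨i - 1, by omega⟩ ⟨i, hi⟩ * σ) i) := by
  set p : Fin L := ⟨i - 1, by omega⟩ with hp
  set r : Fin L := ⟨i, hi⟩ with hr
  have hpr : p ≠ r := by
    rw [Ne, Fin.ext_iff]
    simp only [hp, hr]
    omega
  set a := σ.symm p with ha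
  set b := σ.symm r with hb
  have hσa : σ a = p := by rw [ha, Equiv.apply_symm_apply]
  have hσb : σ b = r := by rw [hb, Equiv.apply_symm_apply]
  have hσa' : (σ a).val = i - 1 := by rw [hσa]
  have hσb' : (σ b).val = i := by rw [hσb]
  have hab : a ≠ b := by
    intro h
    rw [h, hσb] at hσa
    exact hpr hσa.symm
  have hother : ∀ c, c ≠ a → c ≠ b → (σ c).val ≠ i - 1 ∧ (σ c).val ≠ i := by
    intro c hca hcb
    exact ⟨fun h => hca (σ.injective (Fin.ext (h.trans hσa'.symm))),
      fun h => hcb (σ.injective (Fin.ext (h.trans hσb'.symm)))⟩
  set x0 := st σ i with hx0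
  have hx0i : Function.Injective x0 := st_inj σ i
  have va : (x0 a).val = i - 1 := by
    rw [hx0, st_val, if_pos (by omega), hσa']
  have vb : (x0 b).val = L + 1 + i := by
    rw [hx0, st_val, if_neg (by omega), hσb']
  have vc : ∀ c, c ≠ a → c ≠ b → (x0 c).val < i - 1 ∨
      (L + 1 + i < (x0 c).val ∧ (x0 c).val ≤ 2 * L) := by
    intro c hca hcb
    have h3 := hother c hca hcb
    have h4 := (σ c).2
    rw [hx0, st_val]
    split_ifs <;> omega
  -- the pebble `a` goes to the centre
  set x1 := Function.update x0 a ⟨L, by omega⟩ with hx1
  have s1 : Reach (spider L) x0 x1 := by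
    refine slide_to hx0i a _ (by simp only; omega) (by simp only; omega) ?_
    intro c hc h
    by_cases hcb : c = b
    · rw [hcb, vb] at h
      simp only at h
      omega
    · have := vc c hc hcb
      simp only at h
      omega
  have hx1i : Function.Injective x1 := Reach.inj hx0i s1
  -- the pebble `a` goes to the leaf
  set x2 := Function.update x0 a ⟨2 * L + 1, by omega⟩ with hx2
  have s2 : Reach (spider L) x1 x2 := by
    refine ReflTransGen.single ⟨hx1i, a, ⟨2 * L + 1, by omega⟩, ?_, ?_, ?_⟩
    · rw [hx1, Function.update_self, spider_adj]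
      exact Or.inr (Or.inl ⟨rfl, rfl⟩)
    · intro c hc
      rw [Fin.ext_iff] at hc
      simp only at hc
      by_cases hca : c = a
      · rw [hca, hx1, Function.update_self] at hc
        simp only at hc
        omega
      · rw [hx1, Function.update_of_ne hca] at hc
        by_cases hcb : c = b
        · rw [hcb, vb] at hc
          omega
        · have := vc c hca hcb
          omega
    · rw [hx1, hx2, Function.update_idem]
  have hx2i : Function.Injective x2 := Reach.inj hx1i s2
  have v2a : (x2 a).val = 2 * L + 1 := by rw [hx2, Function.update_self]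
  have v2b : (x2 b).val = L + 1 + i := by rw [hx2, Function.update_of_ne hab.symm, vb]
  have v2c : ∀ c, c ≠ a → c ≠ b → (x2 c).val < i - 1 ∨
      (L + 1 + i < (x2 c).val ∧ (x2 c).val ≤ 2 * L) := by
    intro c hca hcb
    rw [hx2, Function.update_of_ne hca]
    exact vc c hca hcb
  -- the pebble `b` goes to the left leg
  set x3 := Function.update x2 b ⟨i - 1, by omega⟩ with hx3
  have s3 : Reach (spider L) x2 x3 := by
    refine slide_to_left hx2i b _ (by omega) (by simp only; omega) ?_
    intro c hcb h
    by_cases hca : c = a
    · rw [hca, v2a, v2b] at h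
      simp only at h
      omega
    · have := v2c c hca hcb
      rw [v2b] at h
      simp only at h
      omega
  have hx3i : Function.Injective x3 := Reach.inj hx2i s3
  have v3a : (x3 a).val = 2 * L + 1 := by rw [hx3, Function.update_of_ne hab, v2a]
  have v3b : (x3 b).val = i - 1 := by rw [hx3, Function.update_self]
  have v3c : ∀ c, c ≠ a → c ≠ b → (x3 c).val < i - 1 ∨
      (L + 1 + i < (x3 c).val ∧ (x3 c).val ≤ 2 * L) := by
    intro c hca hcb
    rw [hx3, Function.update_of_ne hcb]
    exact v2c c hca hcb
  -- the pebble `a` returns to the centre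
  set x4 := Function.update x3 a ⟨L, by omega⟩ with hx4
  have s4 : Reach (spider L) x3 x4 := by
    refine ReflTransGen.single ⟨hx3i, a, ⟨L, by omega⟩, ?_, ?_, rfl⟩
    · rw [spider_adj]
      exact Or.inr (Or.inr ⟨v3a, rfl⟩)
    · intro c hc
      rw [Fin.ext_iff] at hc
      simp only at hc
      by_cases hca : c = a
      · rw [hca, v3a] at hc
        omega
      · by_cases hcb : c = b
        · rw [hcb, v3b] at hc
          omega
        · have := v3c c hca hcb
          omega
  have hx4i : Function.Injective x4 := Reach.inj hx3i s4
  have v4a : (x4 a).val = L := by rw [hx4, Function.update_self]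
  -- the pebble `a` goes to the right leg
  set x5 := Function.update x4 a ⟨L + 1 + i, by omega⟩ with hx5
  have s5 : Reach (spider L) x4 x5 := by
    refine slide_to hx4i a _ (by simp only; omega) (by simp only; omega) ?_
    intro c hca h
    rw [v4a] at h
    simp only at h
    rw [hx4, Function.update_of_ne hca] at h
    by_cases hcb : c = b
    · rw [hcb, v3b] at h
      omega
    · have := v3c c hca hcb
      omega
  have e : x5 = st (Equiv.swap p r * σ) i := by
    funext c
    apply Fin.ext
    rw [st_val]
    by_cases hca : c = a
    · rw [hca, hx5, Function.update_self, Equiv.Perm.mul_apply, hσa, Equiv.swap_apply_left, hr]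
      simp
    · rw [hx5, Function.update_of_ne hca, hx4, Function.update_of_ne hca]
      by_cases hcb : c = b
      · rw [hcb, v3b, Equiv.Perm.mul_apply, hσb, Equiv.swap_apply_right, hp]
        simp only
        rw [if_pos (by omega)]
      · rw [hx3, Function.update_of_ne hcb, hx2, Function.update_of_ne hca, Equiv.Perm.mul_apply,
          Equiv.swap_apply_of_ne_of_ne, hx0, st_val]
        · intro h
          exact hca (σ.injective (h.trans hσa.symm))
        · intro h
          exact hcb (σ.injective (h.trans hσb.symm))
  rw [← e]
  exact (((s1.trans s2).trans s3).trans s4).trans s5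

theorem reach_swap (σ : Equiv.Perm (Fin L)) {i : ℕ} (h1i : 1 ≤ i) (hi : i < L) :
    Reach (spider L) (st σ 0) (st (Equiv.swap ⟨i - 1, by omega⟩ ⟨i, hi⟩ * σ) 0) :=
  ((st_zero σ hi.le).trans (st_swap σ h1i hi)).trans (Reach.symm (st_zero _ hi.le))

end Pool.Agent.H185.PM
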