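import Pool.Agent.H185.PM.Reach

/-!
# The spider: two legs of length `L` and one of length `1`
-/

set_option autoImplicit false

open Finset Relation

namespace Pool.Agent.H185.PM

/-- the parent function: the path `0, …, 2L` and the leaf `2L+1` attached to `L` -/
def spar (L v : ℕ) : ℕ := if v = 2 * L + 1 then L else v - 1

/-- the spider -/
def spider (L : ℕ) : SimpleGraph (Fin (2 * L + 2)) := parGraph (2 * L + 2) (spar L)

theorem spar_lt (L v : ℕ) (h : v ≠ 0) : spar L v < v := by
  unfold spar
  split_ifs <;> omega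

theorem spider_tree (L : ℕ) : (spider L).IsTree := parGraph_tree (by omega) (spar_lt L)

theorem spider_adj {L : ℕ} (u v : Fin (2 * L + 2)) : (spider L).Adj u v ↔
    (u.val ≤ 2 * L ∧ v.val ≤ 2 * L ∧ (u.val + 1 = v.val ∨ v.val + 1 = u.val)) ∨
    (u.val = L ∧ v.val = 2 * L + 1) ∨ (u.val = 2 * L + 1 ∧ v.val = L) := by
  have hu := u.2
  have hv := v.2
  change (u ≠ v ∧ ((v.val ≠ 0 ∧ u.val = spar L v.val) ∨ (u.val ≠ 0 ∧ v.val = spar L u.val))) ↔ _
  rw [Ne, Fin.ext_iff]
  unfold spar
  split_ifs <;> omega

/-- the coordinate -/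
def yc (L : ℕ) (v : Fin (2 * L + 2)) : ℤ := if v.val ≤ 2 * L then (v.val : ℤ) - L else 0

theorem yc_adj {L : ℕ} {u v : Fin (2 * L + 2)} (h : (spider L).Adj u v) : |yc L v - yc L u| ≤ 1 := by
  rw [spider_adj] at h
  unfold yc
  rw [abs_le]
  have hu := u.2
  have hv := v.2
  split_ifs <;> omega

theorem yc_eq {L : ℕ} {u v : Fin (2 * L + 2)} (hne : u ≠ v) (h : yc L u = yc L v) : yc L u = 0 := by
  have h1 : u.val ≠ v.val := fun h => hne (Fin.ext h)
  have hu := u.2
  have hv := v.2
  unfold yc at *
  split_ifs at * <;> omega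

theorem card_yc {L D : ℕ} (hD : 0 < D) :
    (univ.filter fun v : Fin (2 * L + 2) => (yc L v).natAbs < 2 * D).card ≤ 4 * D := by
  classical
  have h1 : ((univ.filter fun v : Fin (2 * L + 2) => (yc L v).natAbs < 2 * D).image
      (fun v : Fin (2 * L + 2) => (v.val : ℤ))) ⊆
      insert ((2 * L + 1 : ℕ) : ℤ) (Ioo ((L : ℤ) - 2 * D) (L + 2 * D)) := by
    intro z hz
    obtain ⟨v, hv, rfl⟩ := mem_image.1 hz
    have hv1 := (mem_filter.1 hv).2
    have hv2 := v.2
    rw [mem_insert, mem_Ioo]
    unfold yc at hv1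
    split_ifs at hv1 <;> omega
  have h2 := card_le_card h1
  rw [card_image_of_injective _ (fun a b h => Fin.ext (by exact_mod_cast h))] at h2
  refine h2.trans ((card_insert_le _ _).trans ?_)
  rw [Int.card_Ioo]
  omega

/-- a discrete intermediate value theorem -/
theorem ivt {z : ℕ → ℤ} {T : ℕ} (h0 : 0 < z 0) (hT : z T < 0) (hs : ∀ t < T, |z (t + 1) - z t| ≤ 1) :
    ∃ t ≤ T, z t = 0 := by
  by_contra hcon
  push Not at hcon
  have : ∀ t ≤ T, 0 < z t := by
    intro t
    induction t with
    | zero => intro _; exact h0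
    | succ t ih =>
      intro ht
      have h1 := ih (by omega)
      have h2 := abs_le.1 (hs t (by omega))
      have h3 := hcon (t + 1) ht
      omega
  have := this T le_rfl
  omega

theorem lower_spider {L T m : ℕ} {f g : Fin (2 * L + 2) → Fin (L + 1)} (hf : IsConfig f)
    (h : Solves (spider L) f g T) (hf' : ∀ i : Fin L, yc L (pl f i) = i.val + 1)
    (hg' : ∀ i : Fin L, yc L (pl g i) = L - i.val) :
    m * (L * (L - 1)) ≤ 25 * (T + 4 ^ m) := by
  classical
  obtain ⟨s, hs0, hsT, hs⟩ := h
  have hcfg : ∀ t ≤ T, IsConfig (s t) := by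
    intro t
    induction t with
    | zero => intro _; rw [hs0]; exact hf
    | succ t ih =>
      intro ht
      exact (move_config (ih (by omega)) (hs t (by omega))).1
  have hstep : ∀ t < T, ∃ a, (∀ i, i ≠ a → yc L (pl (s (t + 1)) i) = yc L (pl (s t) i)) ∧
      |yc L (pl (s (t + 1)) a) - yc L (pl (s t) a)| ≤ 1 := by
    intro t ht
    obtain ⟨-, a, h1, h2⟩ := move_config (hcfg t ht.le) (hs t ht)
    exact ⟨a, fun i hi => by rw [h1 i hi], yc_adj h2⟩
  refine lower (fun t i => yc L (pl (s t) i)) hstep ?_ ?_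
  · intro D hD t ht
    refine le_trans ?_ (card_yc (L := L) hD)
    refine card_le_card_of_injOn (fun i => pl (s t) i) ?_ ((pl_inj (hcfg t ht)).injOn)
    intro i hi
    have := (mem_filter.1 hi).2
    exact mem_filter.2 ⟨mem_univ _, this⟩
  · have key : ∀ a b : Fin L, a < b → ∃ t ≤ T, yc L (pl (s t) a) = 0 ∧ yc L (pl (s t) b) = 0 := by
      intro a b hab
      have hab' : a.val < b.val := hab
      obtain ⟨t, htT, ht⟩ := ivt (z := fun t => yc L (pl (s t) b) - yc L (pl (s t) a)) (T := T)
        (by simp only [hs0, hf']; omega) (by simp only [hsT, hg']; omega) (by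
          intro t ht
          obtain ⟨c, hc1, hc2⟩ := hstep t ht
          by_cases h1 : b = c
          · have h2 : a ≠ c := by
              rw [← h1]
              exact hab.ne
            rw [hc1 a h2, h1]
            refine le_trans (le_of_eq ?_) hc2
            congr 1
            ring
          · rw [hc1 b h1]
            by_cases h2 : a = c
            · rw [h2, abs_sub_comm]
              refine le_trans (le_of_eq ?_) hc2
              congr 1
              ring
            · rw [hc1 a h2]
              simp)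
      have h1 : yc L (pl (s t) b) = yc L (pl (s t) a) := by
        have ht' : yc L (pl (s t) b) - yc L (pl (s t) a) = 0 := ht
        omega
      have h2 : pl (s t) b ≠ pl (s t) a := fun h => hab.ne' (pl_inj (hcfg t htT) h)
      have h3 := yc_eq h2 h1
      exact ⟨t, htT, h1 ▸ h3, h3⟩
    intro a b hab
    rcases lt_or_gt_of_ne hab with h1 | h1
    · exact key a b h1
    · obtain ⟨t, ht, h2, h3⟩ := key b a h1
      exact ⟨t, ht, h3, h2⟩

/-! ### Isthmuses -/

/-- the part of the spider -/
def key (L : ℕ) (v : Fin (2 * L + 2)) : ℕ :=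
  if v.val < L then 0 else if v.val = L then 1 else if v.val ≤ 2 * L then 2 else 3

theorem key_adj {L : ℕ} {u v : Fin (2 * L + 2)} (h : (spider L).Adj u v) (hu : u.val ≠ L)
    (hv : v.val ≠ L) : key L u = key L v := by
  rw [spider_adj] at h
  unfold key
  split_ifs <;> omega

theorem key_walk {L : ℕ} {u v : Fin (2 * L + 2)} (p : (spider L).Walk u v)
    (h : ∀ x ∈ p.support, x.val ≠ L) : ∀ x ∈ p.support, key L x = key L u := by
  induction p with
  | nil =>
    intro x hx
    rw [SimpleGraph.Walk.support_nil, List.mem_singleton] at hx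
    rw [hx]
  | cons hadj p ih =>
    rename_i u v w
    intro x hx
    rw [SimpleGraph.Walk.support_cons, List.mem_cons] at hx
    rcases hx with rfl | hx
    · rfl
    · rw [ih (fun x hx => h x (by rw [SimpleGraph.Walk.support_cons]; exact List.mem_cons_of_mem _ hx))
        x hx]
      exact (key_adj hadj (h _ (by simp)) (h _ (by simp))).symm

theorem card_key {L : ℕ} (hL : 0 < L) {u : Fin (2 * L + 2)} (hu : u.val ≠ L) :
    (univ.filter fun v : Fin (2 * L + 2) => key L v = key L u).card ≤ L := by
  classical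
  have h2u := u.2
  have : ∃ a : ℕ, ∀ v : Fin (2 * L + 2), key L v = key L u → a ≤ v.val ∧ v.val < a + L := by
    by_cases h1 : u.val < L
    · refine ⟨0, fun v hv => ?_⟩
      unfold key at hv
      split_ifs at hv <;> omega
    · by_cases h2 : u.val ≤ 2 * L
      · refine ⟨L + 1, fun v hv => ?_⟩
        unfold key at hv
        split_ifs at hv <;> omega
      · refine ⟨2 * L + 1, fun v hv => ?_⟩
        have hv2 := v.2
        unfold key at hv
        split_ifs at hv <;> omega
  obtain ⟨a, ha⟩ := this
  calc (univ.filter fun v : Fin (2 * L + 2) => key L v = key L u).card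
      ≤ (Ico a (a + L)).card := by
        refine card_le_card_of_injOn (fun v => v.val) ?_ (fun x _ y _ h => Fin.ext h)
        intro v hv
        have := ha v (mem_filter.1 hv).2
        exact mem_coe.2 (mem_Ico.2 this)
    _ = L := by rw [Nat.card_Ico]; omega

theorem length_le_of_avoid {L : ℕ} (hL : 0 < L) {u v : Fin (2 * L + 2)} (p : (spider L).Walk u v)
    (hp : p.IsPath) (h : ∀ x ∈ p.support, x.val ≠ L) : p.support.length ≤ L := by
  classical
  have h1 := key_walk p h
  rw [← List.toFinset_card_of_nodup hp.support_nodup]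
  refine le_trans (card_le_card ?_) (card_key hL (h u p.start_mem_support))
  intro x hx
  rw [List.mem_toFinset] at hx
  exact mem_filter.2 ⟨mem_univ _, h1 x hx⟩

theorem length_le_of_start {L : ℕ} (hL : 0 < L) {u v : Fin (2 * L + 2)} (p : (spider L).Walk u v)
    (hp : p.IsPath) (hu : u.val = L) : p.support.length ≤ L + 1 := by
  cases p with
  | nil => simp
  | cons hadj p =>
    rename_i w
    rw [SimpleGraph.Walk.cons_isPath_iff] at hp
    have h1 := length_le_of_avoid hL p hp.1 (fun x hx h => hp.2 (by
      have : x = u := Fin.ext (h.trans hu.symm)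
      rw [← this]
      exact hx))
    rw [SimpleGraph.Walk.support_cons, List.length_cons]
    omega

theorem center_neighbors {L : ℕ} (hL : 0 < L) {x : Fin (2 * L + 2)} (hx : x.val = L) :
    ((spider L).neighborSet x).ncard ≠ 2 := by
  classical
  have h1 : ({(⟨L - 1, by omega⟩ : Fin (2 * L + 2)), ⟨L + 1, by omega⟩, ⟨2 * L + 1, by omega⟩} :
      Set (Fin (2 * L + 2))) ⊆ (spider L).neighborSet x := by
    intro y hy
    rw [SimpleGraph.mem_neighborSet, spider_adj]
    simp only [Set.mem_insert_iff, Set.mem_singleton_iff] at hy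
    rcases hy with h | h | h
    · have : y.val = L - 1 := by rw [h]
      omega
    · have : y.val = L + 1 := by rw [h]
      omega
    · have : y.val = 2 * L + 1 := by rw [h]
      omega
  have h2 := Set.ncard_le_ncard h1 (Set.toFinite _)
  have h3 : ({(⟨L - 1, by omega⟩ : Fin (2 * L + 2)), ⟨L + 1, by omega⟩, ⟨2 * L + 1, by omega⟩} :
      Set (Fin (2 * L + 2))).ncard = 3 := by
    rw [Set.ncard_eq_three]
    refine ⟨_, _, _, ?_, ?_, ?_, rfl⟩ <;> rw [Ne, Fin.ext_iff] <;> simp only <;> omega
  omega

theorem isthmus_le {L : ℕ} (hL : 0 < L) : isthmusSize (spider L) ≤ L + 1 := by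
  refine csSup_le' ?_
  rintro d ⟨u, v, p, ⟨hp, -, -, hdeg⟩, rfl⟩
  by_cases h : ∀ x ∈ p.support, x.val ≠ L
  · exact (length_le_of_avoid hL p hp h).trans (Nat.le_succ L)
  · push Not at h
    obtain ⟨x, hx, hxL⟩ := h
    by_cases hu : x = u
    · exact length_le_of_start hL p hp (by rw [← hu]; exact hxL)
    · by_cases hv : x = v
      · have h1 := length_le_of_start hL p.reverse hp.reverse (by rw [← hv]; exact hxL)
        rwa [SimpleGraph.Walk.support_reverse, List.length_reverse] at h1
      · exact absurd (hdeg x hx hu hv) (center_neighbors hL hxL)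

end Pool.Agent.H185.PM
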